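import Pool.Agent.Helper24_Sparse.Mat

/-!
# The complex side: Parseval, arithmetic and geometric mean, and the norm bound
-/

namespace Pool.Agent.Helper24_Sparse

open Finset Matrix

theorem geom_zero {q : ℕ} (x : ℂ) (hx : x ^ q = 1) (h1 : x ≠ 1) :
    ∑ s : Fin q, x ^ (s : ℕ) = 0 := by
  rw [Fin.sum_univ_eq_sum_range (fun n => x ^ n), geom_sum_eq h1, hx]
  simp

theorem parseval {q : ℕ} [NeZero q] (b : Fin q → ℤ) (w : ℂ) (hw : IsPrimitiveRoot w q) :
    ∑ s : Fin q, ‖ev b (w ^ (s : ℕ))‖ ^ 2 = q * ∑ t : Fin q, (b t : ℝ) ^ 2 := by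
  have hq : q ≠ 0 := NeZero.ne q
  have hn : ‖w‖ = 1 := hw.norm'_eq_one hq
  have hc : w * (starRingEnd ℂ) w = 1 := by
    rw [Complex.mul_conj, Complex.normSq_eq_norm_sq, hn]; norm_num
  have key : ∀ i j : Fin q, ∑ s : Fin q, (w ^ (s : ℕ)) ^ (i : ℕ) *
      (starRingEnd ℂ) ((w ^ (s : ℕ)) ^ (j : ℕ)) = if i = j then (q : ℂ) else 0 := by
    intro i j
    have h1 : ∀ s : Fin q, (w ^ (s : ℕ)) ^ (i : ℕ) * (starRingEnd ℂ) ((w ^ (s : ℕ)) ^ (j : ℕ)) =
        (w ^ (i : ℕ) * (starRingEnd ℂ) w ^ (j : ℕ)) ^ (s : ℕ) := by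
      intro s
      simp only [map_pow]
      ring
    rw [sum_congr rfl fun s _ => h1 s]
    split_ifs with h
    · subst h
      rw [← mul_pow, hc, one_pow]
      simp
    · refine geom_zero _ ?_ ?_
      · rw [mul_pow, ← pow_mul, ← pow_mul, mul_comm (i : ℕ), mul_comm (j : ℕ), pow_mul, pow_mul,
          ← map_pow, hw.pow_eq_one]
        simp
      · intro h2
        apply h
        have h3 : w ^ (i : ℕ) = w ^ (j : ℕ) := by
          calc w ^ (i : ℕ) = w ^ (i : ℕ) * (w * (starRingEnd ℂ) w) ^ (j : ℕ) := by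
                rw [hc, one_pow, mul_one]
            _ = (w ^ (i : ℕ) * (starRingEnd ℂ) w ^ (j : ℕ)) * w ^ (j : ℕ) := by ring
            _ = w ^ (j : ℕ) := by rw [h2, one_mul]
        exact Fin.ext (hw.pow_inj i.2 j.2 h3)
  have h2 : ((∑ s : Fin q, ‖ev b (w ^ (s : ℕ))‖ ^ 2 : ℝ) : ℂ) =
      ((q * ∑ t : Fin q, (b t : ℝ) ^ 2 : ℝ) : ℂ) := by
    push_cast
    calc ∑ s : Fin q, ((‖ev b (w ^ (s : ℕ))‖ : ℂ)) ^ 2
        = ∑ s : Fin q, ev b (w ^ (s : ℕ)) * (starRingEnd ℂ) (ev b (w ^ (s : ℕ))) := by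
          refine sum_congr rfl fun s _ => ?_
          rw [Complex.mul_conj, Complex.normSq_eq_norm_sq]
          push_cast
          rfl
      _ = ∑ s : Fin q, ∑ i : Fin q, ∑ j : Fin q, (b i : ℂ) * (b j : ℂ) *
            ((w ^ (s : ℕ)) ^ (i : ℕ) * (starRingEnd ℂ) ((w ^ (s : ℕ)) ^ (j : ℕ))) := by
          refine sum_congr rfl fun s _ => ?_
          simp only [ev, map_sum, map_mul, sum_mul_sum]
          refine sum_congr rfl fun i _ => sum_congr rfl fun j _ => ?_
          rw [map_intCast]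
          ring
      _ = ∑ i : Fin q, ∑ j : Fin q, (b i : ℂ) * (b j : ℂ) *
            ∑ s : Fin q, ((w ^ (s : ℕ)) ^ (i : ℕ) * (starRingEnd ℂ) ((w ^ (s : ℕ)) ^ (j : ℕ))) := by
          rw [sum_comm]
          refine sum_congr rfl fun i _ => ?_
          rw [sum_comm]
          refine sum_congr rfl fun j _ => ?_
          rw [mul_sum]
      _ = (q : ℂ) * ∑ t : Fin q, (b t : ℂ) ^ 2 := by
          simp only [key, mul_ite, mul_zero, sum_ite_eq, mem_univ, if_true]
          rw [mul_sum]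
          refine sum_congr rfl fun i _ => ?_
          ring
  exact_mod_cast h2

/-- arithmetic and geometric mean -/
theorem amgm {ι : Type*} (s : Finset ι) (x : ι → ℝ) (hx : ∀ i ∈ s, 0 ≤ x i) (hs : 0 < s.card) :
    ∏ i ∈ s, x i ≤ ((∑ i ∈ s, x i) / s.card) ^ s.card := by
  have hc : (0 : ℝ) < s.card := by exact_mod_cast hs
  have h := Real.geom_mean_le_arith_mean_weighted s (fun _ => (s.card : ℝ)⁻¹) x
    (fun _ _ => by positivity) (by simp [hc.ne']) hx
  have h1 : (∏ i ∈ s, x i ^ ((s.card : ℝ)⁻¹)) = (∏ i ∈ s, x i) ^ ((s.card : ℝ)⁻¹) :=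
    Real.finsetProd_rpow s x hx _
  have h0 : 0 ≤ ∏ i ∈ s, x i := prod_nonneg hx
  rw [h1, ← mul_sum] at h
  calc ∏ i ∈ s, x i = ((∏ i ∈ s, x i) ^ ((s.card : ℝ)⁻¹)) ^ s.card := by
        rw [← Real.rpow_natCast, ← Real.rpow_mul h0, inv_mul_cancel₀ hc.ne', Real.rpow_one]
    _ ≤ ((∑ i ∈ s, x i) / s.card) ^ s.card := by
        refine pow_le_pow_left₀ (Real.rpow_nonneg h0 _) (le_trans h (le_of_eq ?_)) _
        ring

/-- the values at the nontrivial roots of unity do not vanish -/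
theorem ev_ne_zero {q : ℕ} [NeZero q] (hq : q.Prime) (b : Fin q → ℤ) (hb : ∃ t, b t = 0)
    (hb' : ∃ t, b t ≠ 0) (w : ℂ) (hw : IsPrimitiveRoot w q) : ev b w ≠ 0 := by
  intro h
  obtain ⟨t0, ht0⟩ := hb
  obtain ⟨t1, ht1⟩ := hb'
  set F : Polynomial ℤ := ∑ t : Fin q, Polynomial.C (b t) * Polynomial.X ^ (t : ℕ) with hF
  have hcoef : ∀ t : Fin q, F.coeff t = b t := by
    intro t
    simp only [hF, Polynomial.finsetSum_coeff, Polynomial.coeff_C_mul, Polynomial.coeff_X_pow]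
    rw [sum_eq_single t]
    · simp
    · intro j _ hj
      have : (t : ℕ) ≠ (j : ℕ) := fun h => hj (Fin.ext h.symm)
      simp [this]
    · simp
  have hdeg : F.degree < q := by
    refine lt_of_le_of_lt (Polynomial.degree_sum_le _ _) ?_
    rw [Finset.sup_lt_iff (by exact WithBot.bot_lt_coe q)]
    intro t _
    refine lt_of_le_of_lt (Polynomial.degree_C_mul_X_pow_le _ _) ?_
    exact_mod_cast t.2
  have hev : Polynomial.aeval w F = 0 := by
    rw [← h]
    simp [hF, ev]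
  have hint : IsIntegral ℤ w := hw.isIntegral hq.pos
  have hdvd : Polynomial.cyclotomic q ℤ ∣ F := by
    rw [Polynomial.cyclotomic_eq_minpoly hw hq.pos]
    exact minpoly.isIntegrallyClosed_dvd hint hev
  obtain ⟨g, hg⟩ := hdvd
  have hF0 : F ≠ 0 := by
    intro h0
    apply ht1
    rw [← hcoef t1, h0]
    simp
  have hg0 : g ≠ 0 := by
    rintro rfl
    exact hF0 (by rw [hg, mul_zero])
  have hdg : g.natDegree = 0 := by
    have h1 : F.natDegree = (Polynomial.cyclotomic q ℤ).natDegree + g.natDegree := by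
      rw [hg, Polynomial.natDegree_mul (Polynomial.cyclotomic_ne_zero _ _) hg0]
    rw [Polynomial.natDegree_cyclotomic, Nat.totient_prime hq] at h1
    have h2 : F.natDegree < q := (Polynomial.natDegree_lt_iff_degree_lt hF0).mpr hdeg
    omega
  obtain ⟨c, hc⟩ := Polynomial.natDegree_eq_zero.mp hdg
  have hall : ∀ t : Fin q, b t = c := by
    intro t
    have := Fact.mk hq
    rw [← hcoef t, hg, ← hc, Polynomial.cyclotomic_prime, mul_comm, Polynomial.coeff_C_mul,
      Polynomial.finsetSum_coeff]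
    simp only [Polynomial.coeff_X_pow]
    rw [sum_ite_eq (range q) (t : ℕ)]
    simp [t.2]
  exact ht1 (by rw [hall t1, ← hall t0, ht0])

end Pool.Agent.Helper24_Sparse
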