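import Pool.Agent.Helper24_Sparse.Cpx

/-!
# The norm bound
-/

namespace Pool.Agent.Helper24_Sparse

open Finset Matrix

theorem ev_add_one {K : Type*} [CommRing K] {q : ℕ} (b : Fin q → ℤ) (z : K) :
    ev (fun t => b t + 1) z = ev b z + ∑ t : Fin q, z ^ (t : ℕ) := by
  simp only [ev, ← sum_add_distrib]
  refine sum_congr rfl fun t _ => ?_
  push_cast
  ring

/-- if the integer polynomial `b` vanishes modulo `p` at `r` nontrivial `q`-th roots of unity then
`p ^ (2 r) ≤ q ^ 2 (2 S) ^ (q - 1)`, `S` the sum of the squares of the coefficients -/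
theorem main_bound {q p : ℕ} (hq : q.Prime) [NeZero q] [Fact p.Prime] (b : Fin q → ℤ)
    (hb : ∃ t, b t = 0) (hb' : ∃ t, b t ≠ 0) (z : Fin q → ZMod p) (hz : ∀ s, z s ^ q = 1)
    (hi : Function.Injective z) (T : Finset (Fin q)) (hT : ∀ s ∈ T, z s ≠ 1 ∧ ev b (z s) = 0) :
    (p : ℝ) ^ (2 * T.card) ≤ (q : ℝ) ^ 2 * (2 * ∑ t : Fin q, (b t : ℝ) ^ 2) ^ (q - 1) := by
  set w : ℂ := Complex.exp (2 * Real.pi * Complex.I / q) with hw'
  have hw : IsPrimitiveRoot w q := Complex.isPrimitiveRoot_exp q hq.ne_zero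
  have hwz : ∀ s : Fin q, (w ^ (s : ℕ)) ^ q = 1 := fun s => by
    rw [← pow_mul, mul_comm, pow_mul, hw.pow_eq_one, one_pow]
  have hwi : Function.Injective fun s : Fin q => w ^ (s : ℕ) := fun s t h =>
    Fin.ext (hw.pow_inj s.2 t.2 h)
  set N : ℂ := ∏ s ∈ univ.erase (0 : Fin q), ev b (w ^ (s : ℕ)) with hN
  have hne1 : ∀ s ∈ univ.erase (0 : Fin q), w ^ (s : ℕ) ≠ 1 := by
    intro s hs h
    have h1 : (s : ℕ) = 0 := hw.pow_inj s.2 hq.pos (by rw [h, pow_zero])
    exact (mem_erase.mp hs).1 (Fin.ext (by simpa using h1))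
  have hd0 : ((circ b).det : ℂ) = ev b 1 * N := by
    rw [det_circ b _ hwz hwi, ← mul_prod_erase univ _ (mem_univ (0 : Fin q)), hN]
    simp
  have hd1 : ((circ fun t => b t + 1).det : ℂ) = (ev b 1 + q) * N := by
    rw [det_circ _ _ hwz hwi, ← mul_prod_erase univ _ (mem_univ (0 : Fin q))]
    congr 1
    · rw [ev_add_one]
      simp
    · refine prod_congr rfl fun s hs => ?_
      rw [ev_add_one, geom_zero _ (hwz s) (hne1 s hs), add_zero]
  have hD : (((circ fun t => b t + 1).det - (circ b).det : ℤ) : ℂ) = q * N := by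
    rw [Int.cast_sub, hd0, hd1]
    ring
  have hN0 : N ≠ 0 := by
    rw [hN, prod_ne_zero_iff]
    intro s hs
    refine ev_ne_zero hq b hb hb' _ ?_
    refine hw.pow_of_coprime _ ?_
    rw [Nat.coprime_comm, Nat.Prime.coprime_iff_not_dvd hq]
    intro h
    have h1 := Nat.eq_zero_of_dvd_of_lt h s.2
    exact (mem_erase.mp hs).1 (Fin.ext (by simpa using h1))
  have hdv0 : (p : ℤ) ^ T.card ∣ (circ b).det := pow_dvd_circ p b z hz hi T fun s hs => (hT s hs).2
  have hdv1 : (p : ℤ) ^ T.card ∣ (circ fun t => b t + 1).det := by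
    refine pow_dvd_circ p _ z hz hi T fun s hs => ?_
    rw [ev_add_one, (hT s hs).2, zero_add, Fin.sum_univ_eq_sum_range (fun n => z s ^ n)]
    have h1 := geom_sum_mul (z s) q
    rw [hz s, sub_self] at h1
    exact (mul_eq_zero.mp h1).resolve_right (sub_ne_zero.mpr (hT s hs).1)
  have hdv := dvd_sub hdv1 hdv0
  have hne : (circ fun t => b t + 1).det - (circ b).det ≠ 0 := by
    intro h
    rw [h] at hD
    have : (q : ℂ) * N ≠ 0 := mul_ne_zero (by exact_mod_cast hq.ne_zero) hN0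
    exact this (by rw [← hD]; simp)
  have h1 : (p : ℝ) ^ T.card ≤ q * ‖N‖ := by
    have h2 := Int.le_of_dvd (abs_pos.mpr hne) ((dvd_abs _ _).mpr hdv)
    have h3 : (p : ℝ) ^ T.card ≤ |(((circ fun t => b t + 1).det - (circ b).det : ℤ) : ℝ)| := by
      exact_mod_cast h2
    refine le_trans h3 (le_of_eq ?_)
    have h4 := congrArg norm hD
    rw [Complex.norm_intCast, norm_mul, Complex.norm_natCast] at h4
    exact h4
  have hcard : (univ.erase (0 : Fin q)).card = q - 1 := by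
    rw [card_erase_of_mem (mem_univ _), card_univ, Fintype.card_fin]
  have hq2 : 2 ≤ q := hq.two_le
  have h5 : ‖N‖ ^ 2 ≤ (2 * ∑ t : Fin q, (b t : ℝ) ^ 2) ^ (q - 1) := by
    rw [hN, norm_prod, ← prod_pow]
    refine le_trans (amgm _ _ (fun _ _ => by positivity) (by rw [hcard]; omega)) ?_
    rw [hcard]
    refine pow_le_pow_left₀ (by positivity) ?_ _
    have h6 := parseval b w hw
    have h7 : ∑ s ∈ univ.erase (0 : Fin q), ‖ev b (w ^ (s : ℕ))‖ ^ 2 ≤
        ∑ s : Fin q, ‖ev b (w ^ (s : ℕ))‖ ^ 2 :=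
      sum_le_sum_of_subset_of_nonneg (erase_subset _ _) fun _ _ _ => by positivity
    rw [h6] at h7
    have hS : 0 ≤ ∑ t : Fin q, (b t : ℝ) ^ 2 := sum_nonneg fun _ _ => by positivity
    have hq1 : (0 : ℝ) < ((q - 1 : ℕ) : ℝ) := by
      have : 0 < q - 1 := by omega
      exact_mod_cast this
    rw [div_le_iff₀ hq1]
    refine le_trans h7 ?_
    have h8 : (q : ℝ) ≤ 2 * ((q - 1 : ℕ) : ℝ) := by
      have : q ≤ 2 * (q - 1) := by omega
      exact_mod_cast this
    nlinarith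
  calc (p : ℝ) ^ (2 * T.card) = ((p : ℝ) ^ T.card) ^ 2 := by rw [← pow_mul, mul_comm]
    _ ≤ (q * ‖N‖) ^ 2 := pow_le_pow_left₀ (by positivity) h1 2
    _ = (q : ℝ) ^ 2 * ‖N‖ ^ 2 := by ring
    _ ≤ _ := by gcongr

end Pool.Agent.Helper24_Sparse
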