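import Pool.Agent.Helper24_Sparse.Bound

/-!
# Simultaneous approximation and the roots in the subgroup
-/

namespace Pool.Agent.Helper24_Sparse

open Finset

/-- a common multiple with small residues -/
theorem dirichlet {p : ℕ} [Fact p.Prime] (t m : ℕ) (hm : 0 < m) (hmt : m ^ t < p)
    (γ : Fin t → ZMod p) : ∃ l : ZMod p, l ≠ 0 ∧ ∃ c : Fin t → ℤ,
      (∀ j, |(c j : ℝ)| * m ≤ p) ∧ ∀ j, (c j : ZMod p) = l * γ j := by
  classical
  have hp : 0 < p := (Fact.out : p.Prime).pos
  have hlt : ∀ (x : ZMod p) (j : Fin t), (x * γ j).val * m / p < m := by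
    intro x j
    rw [Nat.div_lt_iff_lt_mul hp]
    have := ZMod.val_lt (x * γ j)
    calc (x * γ j).val * m < p * m := Nat.mul_lt_mul_of_pos_right this hm
      _ = m * p := mul_comm _ _
  let F : ZMod p → (Fin t → Fin m) := fun x j => ⟨(x * γ j).val * m / p, hlt x j⟩
  have hcard : Fintype.card (Fin t → Fin m) < Fintype.card (ZMod p) := by
    rw [ZMod.card, Fintype.card_fun, Fintype.card_fin, Fintype.card_fin]
    exact hmt
  obtain ⟨x, y, hxy, hF⟩ := Fintype.exists_ne_map_eq_of_card_lt F hcard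
  refine ⟨x - y, sub_ne_zero.mpr hxy, fun j => ((x * γ j).val : ℤ) - (y * γ j).val, ?_, ?_⟩
  · intro j
    have h1 : (x * γ j).val * m / p = (y * γ j).val * m / p := by
      have := congrFun hF j
      simpa [F] using congrArg Fin.val this
    have a1 := Nat.div_add_mod ((x * γ j).val * m) p
    have a2 := Nat.div_add_mod ((y * γ j).val * m) p
    have b1 := Nat.mod_lt ((x * γ j).val * m) hp
    have b2 := Nat.mod_lt ((y * γ j).val * m) hp
    rw [h1] at a1
    have c1 : ((x * γ j).val : ℤ) * m - (y * γ j).val * m ≤ p := by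
      zify at a1 a2 b1 b2 ⊢
      have := Int.emod_nonneg (((x * γ j).val : ℤ) * m) (b := (p : ℤ)) (by omega)
      have := Int.emod_nonneg (((y * γ j).val : ℤ) * m) (b := (p : ℤ)) (by omega)
      linarith
    have c2 : ((y * γ j).val : ℤ) * m - (x * γ j).val * m ≤ p := by
      zify at a1 a2 b1 b2 ⊢
      have := Int.emod_nonneg (((x * γ j).val : ℤ) * m) (b := (p : ℤ)) (by omega)
      have := Int.emod_nonneg (((y * γ j).val : ℤ) * m) (b := (p : ℤ)) (by omega)
      linarith
    have d1 : (((x * γ j).val : ℝ) - (y * γ j).val) * m ≤ p := by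
      have : (((x * γ j).val : ℝ) * m - (y * γ j).val * m) ≤ p := by exact_mod_cast c1
      linarith
    have d2 : -((((x * γ j).val : ℝ) - (y * γ j).val) * m) ≤ p := by
      have : (((y * γ j).val : ℝ) * m - (x * γ j).val * m) ≤ p := by exact_mod_cast c2
      linarith
    have hm' : (0 : ℝ) ≤ m := by positivity
    push_cast
    rw [← abs_of_nonneg hm', ← abs_mul]
    exact abs_le.mpr ⟨by linarith, d1⟩
  · intro j
    push_cast
    rw [ZMod.natCast_zmod_val, ZMod.natCast_zmod_val]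
    ring

/-- the number of the roots, in terms of the integer coefficients -/
theorem roots_bound {q p : ℕ} (hq : q.Prime) [Fact p.Prime] (hqp : q ∣ p - 1)
    (A : Finset ℕ) (hA : A ⊂ range q) (hne : A.Nonempty) (b : ℕ → ℤ) (hb : ∀ i ∈ A, b i ≠ 0) :
    (p : ℝ) ^ (2 * ({z : ZMod p | z ^ q = 1 ∧ ∑ i ∈ A, (b i : ZMod p) * z ^ i = 0}.ncard - 1)) ≤
      (q : ℝ) ^ 2 * (2 * ∑ i ∈ A, (b i : ℝ) ^ 2) ^ (q - 1) := by
  classical
  have : NeZero q := ⟨hq.ne_zero⟩
  have := Fact.mk hq
  -- a generator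
  obtain ⟨g, hg⟩ : ∃ g : (ZMod p)ˣ, orderOf g = q := by
    refine exists_prime_orderOf_dvd_card q ?_
    rw [ZMod.card_units]
    exact hqp
  have hgp : IsPrimitiveRoot (g : ZMod p) q := by
    rw [IsPrimitiveRoot.coe_units_iff, ← hg]
    exact IsPrimitiveRoot.orderOf g
  set z : Fin q → ZMod p := fun s => (g : ZMod p) ^ (s : ℕ) with hz
  have hzq : ∀ s, z s ^ q = 1 := fun s => by
    simp only [hz]
    rw [← pow_mul, mul_comm, pow_mul, hgp.pow_eq_one, one_pow]
  have hzi : Function.Injective z := fun s t h => Fin.ext (hgp.pow_inj s.2 t.2 h)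
  set b' : Fin q → ℤ := fun t => if (t : ℕ) ∈ A then b t else 0 with hb'
  have hsub : ∀ {i : ℕ}, i ∈ A → i < q := fun hi => mem_range.mp (hA.1 hi)
  have hsum : ∀ {M : Type} [AddCommMonoid M] (φ : ℕ → M),
      ∑ t : Fin q, (if (t : ℕ) ∈ A then φ t else 0) = ∑ i ∈ A, φ i := by
    intro M _ φ
    rw [Fin.sum_univ_eq_sum_range (fun n => if n ∈ A then φ n else 0), ← sum_filter]
    refine sum_congr ?_ fun _ _ => rfl
    ext i
    simp only [mem_filter, mem_range]
    exact ⟨fun h => h.2, fun h => ⟨hsub h, h⟩⟩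
  have hev : ∀ x : ZMod p, ev b' x = ∑ i ∈ A, (b i : ZMod p) * x ^ i := by
    intro x
    rw [← hsum]
    refine sum_congr rfl fun t _ => ?_
    simp only [hb']
    split_ifs <;> simp
  set T : Finset (Fin q) := univ.filter fun s => z s ≠ 1 ∧ ev b' (z s) = 0 with hT
  obtain ⟨t0, ht0, ht0'⟩ := exists_of_ssubset hA
  obtain ⟨t1, ht1⟩ := hne
  have key := main_bound hq b' ⟨⟨t0, mem_range.mp ht0⟩, by simp [hb', ht0']⟩
    ⟨⟨t1, hsub ht1⟩, by simp only [hb', ht1, if_true]; exact hb t1 ht1⟩ z hzq hzi T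
    (fun s hs => (mem_filter.mp hs).2)
  have hS : ∑ t : Fin q, (b' t : ℝ) ^ 2 = ∑ i ∈ A, (b i : ℝ) ^ 2 := by
    rw [← hsum]
    refine sum_congr rfl fun t _ => ?_
    simp only [hb']
    split_ifs <;> simp
  rw [hS] at key
  refine le_trans (pow_le_pow_right₀ ?_ ?_) key
  · exact_mod_cast (Fact.out : p.Prime).one_le
  · have hle : {x : ZMod p | x ^ q = 1 ∧ ∑ i ∈ A, (b i : ZMod p) * x ^ i = 0}.ncard ≤ T.card + 1 := by
      have h1 : {x : ZMod p | x ^ q = 1 ∧ ∑ i ∈ A, (b i : ZMod p) * x ^ i = 0} ⊆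
          ((insert 1 (T.image z) : Finset (ZMod p)) : Set (ZMod p)) := by
        rintro x ⟨hx1, hx2⟩
        rw [mem_coe, mem_insert]
        by_cases hx : x = 1
        · exact Or.inl hx
        · right
          obtain ⟨s, hs, rfl⟩ := hgp.eq_pow_of_pow_eq_one hx1
          refine mem_image.mpr ⟨⟨s, hs⟩, ?_, rfl⟩
          rw [hT, mem_filter]
          exact ⟨mem_univ _, hx, by rw [hev]; exact hx2⟩
      calc _ ≤ ((insert 1 (T.image z) : Finset (ZMod p)) : Set (ZMod p)).ncard :=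
            Set.ncard_le_ncard h1 (finite_toSet _)
        _ = (insert 1 (T.image z)).card := Set.ncard_coe_finset _
        _ ≤ (T.image z).card + 1 := card_insert_le _ _
        _ ≤ T.card + 1 := by gcongr; exact card_image_le
    omega

end Pool.Agent.Helper24_Sparse
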