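import Mathlib

/-!
# Almost all coefficient vectors

Counting of the coefficient vectors on a given set `A` of exponents for which the polynomial has
many zeros among the `q`-th roots of unity of `ZMod p`.
-/

set_option autoImplicit false

namespace Pool.Agent.Helper24_Sparse

open Finset Module

section field

variable {F : Type*} [Field F]

/-- The value at `z` of the polynomial with exponents in `A`. -/
def evz (A : Finset ℕ) (z : F) : (A → F) →ₗ[F] F where
  toFun β := ∑ i : A, β i * z ^ (i : ℕ)
  map_add' x y := by simp only [Pi.add_apply, add_mul, Finset.sum_add_distrib]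
  map_smul' c x := by
    simp only [Pi.smul_apply, smul_eq_mul, RingHom.id_apply, Finset.mul_sum, mul_assoc]

/-- The polynomials with exponents in `A` which vanish on `Z`. -/
def vanish (A : Finset ℕ) (Z : Set F) : Submodule F (A → F) where
  carrier := {β | ∀ z ∈ Z, evz A z β = 0}
  add_mem' := by
    intro a b ha hb z hz
    rw [map_add, ha z hz, hb z hz, add_zero]
  zero_mem' := by
    intro z _
    rw [map_zero]
  smul_mem' := by
    intro c x hx z hz
    rw [map_smul, hx z hz, smul_zero]

theorem mem_vanish {A : Finset ℕ} {Z : Set F} {β : A → F} :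
    β ∈ vanish A Z ↔ ∀ z ∈ Z, evz A z β = 0 := Iff.rfl

theorem finrank_pi (A : Finset ℕ) : finrank F (A → F) = A.card := by
  rw [finrank_fintype_fun_eq_card, Fintype.card_coe]

/-- A polynomial of degree `< |Z|` vanishing on `Z` is zero; here the exponents are
`(i + t) % q`, `i` in a subset of `A`. -/
theorem zero_of_small {q : ℕ} (A : Finset ℕ) (hA : A ⊆ range q) (Z : Finset F)
    (hZ : ∀ z ∈ Z, z ^ q = 1) (t : ℕ) (β : A → F) (hβ : ∀ z ∈ Z, evz A z β = 0)
    (hs : ∀ i : A, Z.card ≤ ((i : ℕ) + t) % q → β i = 0) : β = 0 := by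
  classical
  -- the polynomial
  let P : Polynomial F := ∑ i : A, Polynomial.monomial (((i : ℕ) + t) % q) (β i)
  have hinj : ∀ i j : A, ((i : ℕ) + t) % q = ((j : ℕ) + t) % q → i = j := by
    intro i j h
    have hi := Finset.mem_range.mp (hA i.2)
    have hj := Finset.mem_range.mp (hA j.2)
    have h1 : (i : ℕ) ≡ (j : ℕ) [MOD q] := Nat.ModEq.add_right_cancel' t h
    exact Subtype.ext (Nat.ModEq.eq_of_lt_of_lt h1 hi hj)
  have hcoef : ∀ i : A, P.coeff (((i : ℕ) + t) % q) = β i := by
    intro i
    simp only [P, Polynomial.finsetSum_coeff, Polynomial.coeff_monomial]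
    rw [Finset.sum_eq_single i]
    · simp
    · intro b _ hb
      rw [if_neg]
      intro h
      exact hb (hinj _ _ h)
    · intro h
      exact absurd (Finset.mem_univ _) h
  have hdeg : P.degree < Z.card := by
    rw [Polynomial.degree_lt_iff_coeff_zero]
    intro m hm
    simp only [P, Polynomial.finsetSum_coeff, Polynomial.coeff_monomial]
    refine Finset.sum_eq_zero fun i _ => ?_
    split_ifs with h
    · exact hs i (by rw [h]; exact hm)
    · rfl
  have heval : ∀ z ∈ Z, P.eval z = 0 := by
    intro z hz
    have h1 : P.eval z = z ^ t * evz A z β := by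
      simp only [P, evz, LinearMap.coe_mk, AddHom.coe_mk, Polynomial.eval_finsetSum,
        Polynomial.eval_monomial, Finset.mul_sum]
      refine Finset.sum_congr rfl fun i _ => ?_
      have : z ^ (((i : ℕ) + t) % q) = z ^ ((i : ℕ) + t) := by
        conv_rhs => rw [← Nat.mod_add_div ((i : ℕ) + t) q, pow_add, pow_mul, hZ z hz, one_pow,
          mul_one]
      rw [this, pow_add]
      ring
    rw [h1, hβ z hz, mul_zero]
  have hP : P = 0 := Polynomial.eq_zero_of_degree_lt_of_eval_finset_eq_zero Z hdeg heval
  funext i
  rw [← hcoef i, hP]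
  simp

/-- The dimension bound for one translate. -/
theorem finrank_add_le {q : ℕ} (A : Finset ℕ) (hA : A ⊆ range q) (Z : Finset F)
    (hZ : ∀ z ∈ Z, z ^ q = 1) (t : ℕ) :
    finrank F (vanish A (Z : Set F)) + (A.filter fun i => (i + t) % q < Z.card).card ≤ A.card := by
  classical
  let B := A.filter fun i => ¬ (i + t) % q < Z.card
  let L : vanish A (Z : Set F) →ₗ[F] (B → F) :=
    { toFun := fun β i => β.1 ⟨i, (Finset.mem_filter.mp i.2).1⟩
      map_add' := fun _ _ => rfl
      map_smul' := fun _ _ => rfl }
  have hL : Function.Injective L := by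
    rw [injective_iff_map_eq_zero]
    intro β h
    have : β.1 = 0 := by
      refine zero_of_small A hA Z hZ t β.1 (fun z hz => β.2 z hz) fun i hi => ?_
      have hm : (i : ℕ) ∈ B := Finset.mem_filter.mpr ⟨i.2, not_lt.mpr hi⟩
      exact congrFun h ⟨i, hm⟩
    exact Subtype.ext this
  have h1 := LinearMap.finrank_le_finrank_of_injective hL
  rw [finrank_fintype_fun_eq_card, Fintype.card_coe] at h1
  have h2 := Finset.card_filter_add_card_filter_not (s := A) (fun i => (i + t) % q < Z.card)
  change finrank F (vanish A (Z : Set F)) ≤ (A.filter fun i => ¬ (i + t) % q < Z.card).card at h1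
  omega

theorem card_shift {q : ℕ} (hq : 0 < q) (i m : ℕ) (hm : m ≤ q) :
    ((range q).filter fun t => (i + t) % q < m).card = m := by
  classical
  have hinj : Set.InjOn (fun t => (i + t) % q) (range q : Finset ℕ) := by
    intro a ha b hb h
    have ha' := Finset.mem_range.mp (Finset.mem_coe.mp ha)
    have hb' := Finset.mem_range.mp (Finset.mem_coe.mp hb)
    have h1 : a ≡ b [MOD q] := Nat.ModEq.add_left_cancel' i h
    exact Nat.ModEq.eq_of_lt_of_lt h1 ha' hb'
  have himg : (range q).image (fun t => (i + t) % q) = range q := by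
    refine Finset.eq_of_subset_of_card_le ?_ ?_
    · intro x hx
      obtain ⟨t, _, rfl⟩ := Finset.mem_image.mp hx
      exact Finset.mem_range.mpr (Nat.mod_lt _ hq)
    · rw [Finset.card_image_of_injOn hinj]
  have h1 : ((range q).filter fun t => (i + t) % q < m).card =
      (((range q).image (fun t => (i + t) % q)).filter fun s => s < m).card := by
    rw [Finset.filter_image, Finset.card_image_of_injOn]
    exact hinj.mono (by
      intro x hx
      exact Finset.mem_coe.mpr (Finset.mem_filter.mp (Finset.mem_coe.mp hx)).1)
  rw [h1, himg]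
  have h2 : (range q).filter (fun s => s < m) = range m := by
    ext x
    simp only [Finset.mem_filter, Finset.mem_range]
    omega
  rw [h2, Finset.card_range]

/-- The dimension bound. -/
theorem finrank_vanish_le {q : ℕ} (hq : 0 < q) (A : Finset ℕ) (hA : A ⊆ range q) (Z : Finset F)
    (hZ : ∀ z ∈ Z, z ^ q = 1) (hZq : Z.card ≤ q) :
    q * finrank F (vanish A (Z : Set F)) + Z.card * A.card ≤ q * A.card := by
  classical
  have h1 : ∑ t ∈ range q, (finrank F (vanish A (Z : Set F)) +
      (A.filter fun i => (i + t) % q < Z.card).card) ≤ ∑ _t ∈ range q, A.card :=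
    Finset.sum_le_sum fun t _ => finrank_add_le A hA Z hZ t
  have h2 : ∑ t ∈ range q, (A.filter fun i => (i + t) % q < Z.card).card =
      Z.card * A.card := by
    simp only [Finset.card_filter]
    rw [Finset.sum_comm]
    simp only [← Finset.card_filter]
    rw [Finset.sum_congr rfl fun i _ => card_shift hq i Z.card hZq]
    rw [Finset.sum_const, smul_eq_mul, mul_comm]
  rw [Finset.sum_add_distrib, h2] at h1
  simpa only [Finset.sum_const, Finset.card_range, smul_eq_mul] using h1

end field

end Pool.Agent.Helper24_Sparse
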