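import Pool.Agent.Helper24_Sparse.Almost

/-!
# Almost all coefficient vectors: the count
-/

set_option autoImplicit false

namespace Pool.Agent.Helper24_Sparse

open Finset Module

section fin

variable {F : Type*} [Field F] [Fintype F] [DecidableEq F]

omit [Fintype F] [DecidableEq F] in
theorem finrank_insert (A : Finset ℕ) (Z : Set F) (z : F) (β₀ : A → F) (h₀ : β₀ ∈ vanish A Z)
    (h : evz A z β₀ ≠ 0) :
    finrank F (vanish A (insert z Z)) + 1 = finrank F (vanish A Z) := by
  let φ : vanish A Z →ₗ[F] F := (evz A z).comp (vanish A Z).subtype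
  have hφ : φ ≠ 0 := by
    intro h1
    apply h
    have := congrArg (fun f => f ⟨β₀, h₀⟩) h1
    exact this
  have h1 := LinearMap.finrank_range_add_finrank_ker φ
  have h2 : LinearMap.range φ = ⊤ := LinearMap.range_eq_top.mpr (LinearMap.surjective hφ)
  rw [h2, finrank_top, finrank_self] at h1
  have h3 : Submodule.map (vanish A Z).subtype (LinearMap.ker φ) = vanish A (insert z Z) := by
    ext β
    simp only [Submodule.mem_map, LinearMap.mem_ker, Submodule.coe_subtype, Subtype.exists,
      exists_and_right, exists_eq_right, mem_vanish, Set.mem_insert_iff, forall_eq_or_imp]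
    constructor
    · rintro ⟨h4, h5⟩
      exact ⟨h5, h4⟩
    · rintro ⟨h4, h5⟩
      exact ⟨h5, h4⟩
  have h4 := Submodule.finrank_map_subtype_eq (vanish A Z) (LinearMap.ker φ)
  rw [h3] at h4
  omega

/-- The number of the polynomials in `vanish A Z` with at least `r` zeros in `G`. -/
noncomputable def bad (A : Finset ℕ) (G : Finset F) (r : ℝ) (Z : Set F) : ℕ :=
  open Classical in
  ((univ : Finset (A → F)).filter fun β => β ∈ vanish A Z ∧
    r ≤ ((G.filter fun z => evz A z β = 0).card : ℝ)).card

theorem bad_le (A : Finset ℕ) (G : Finset F) (r : ℝ) (Z : Set F) :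
    bad A G r Z ≤ Fintype.card F ^ finrank F (vanish A Z) := by
  classical
  rw [← Module.card_eq_pow_finrank (K := F) (V := vanish A Z), Fintype.card_subtype, bad]
  refine Finset.card_le_card fun β hβ => ?_
  simp only [Finset.mem_filter, Finset.mem_univ, true_and] at hβ ⊢
  exact hβ.1

theorem count {q : ℕ} (hq : 0 < q) (A : Finset ℕ) (hA : A ⊆ range q) (hA0 : A.Nonempty)
    (G : Finset F) (hG : ∀ z ∈ G, z ^ q = 1) (hGq : G.card ≤ q) (ε : ℝ) (c : ℕ)
    (hc : ∀ j : ℕ, j < c → 0 ≤ ε - j / A.card) (d : ℕ) :
    ∀ (i : ℕ) (Z : Set F), i + d = c → finrank F (vanish A Z) + i = A.card →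
      (bad A G (ε * q) Z : ℝ) * ∏ j ∈ range d, (ε - ((i + j : ℕ) : ℝ) / A.card) ≤
        (Fintype.card F : ℝ) ^ (A.card - c) := by
  classical
  have hk : (0 : ℝ) < A.card := by exact_mod_cast hA0.card_pos
  have hq' : (0 : ℝ) < q := by exact_mod_cast hq
  induction d with
  | zero =>
    intro i Z hi hf
    have h1 := bad_le A G (ε * q) Z
    have h2 : finrank F (vanish A Z) = A.card - c := by omega
    rw [h2] at h1
    simp only [Finset.range_zero, Finset.prod_empty, mul_one]
    exact_mod_cast h1
  | succ d ih =>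
    intro i Z hi hf
    -- the common zeros
    let C : Finset F := G.filter fun z => ∀ β ∈ vanish A Z, evz A z β = 0
    have hCG : C ⊆ G := Finset.filter_subset _ _
    have hCc : C.card * A.card ≤ q * i := by
      have h1 : vanish A Z ≤ vanish A (C : Set F) := by
        intro β hβ z hz
        exact (Finset.mem_filter.mp (Finset.mem_coe.mp hz)).2 β hβ
      have h2 := Submodule.finrank_mono h1
      have h3 := finrank_vanish_le hq A hA C (fun z hz => hG z (hCG hz))
        ((Finset.card_le_card hCG).trans hGq)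
      have h4 : q * finrank F (vanish A Z) ≤ q * finrank F (vanish A (C : Set F)) :=
        Nat.mul_le_mul_left q h2
      have h5 : q * A.card = q * finrank F (vanish A Z) + q * i := by rw [← hf]; ring
      omega
    have hCr : (C.card : ℝ) ≤ i / A.card * q := by
      rw [div_mul_eq_mul_div, le_div_iff₀ hk]
      have : ((C.card * A.card : ℕ) : ℝ) ≤ ((q * i : ℕ) : ℝ) := by exact_mod_cast hCc
      push_cast at this
      linarith
    -- double counting
    let B : Finset (A → F) := (univ : Finset (A → F)).filter fun β => β ∈ vanish A Z ∧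
      ε * q ≤ ((G.filter fun z => evz A z β = 0).card : ℝ)
    have hB : bad A G (ε * q) Z = B.card := by
      simp only [bad, B]
    have hlow : (B.card : ℝ) * ((ε - i / A.card) * q) ≤
        ∑ β ∈ B, (((G \ C).filter fun z => evz A z β = 0).card : ℝ) := by
      rw [← nsmul_eq_mul]
      refine Finset.card_nsmul_le_sum _ _ _ fun β hβ => ?_
      have h1 := (Finset.mem_filter.mp hβ).2.2
      have h2 : (G.filter fun z => evz A z β = 0) ⊆ ((G \ C).filter fun z => evz A z β = 0) ∪ C := by
        intro z hz
        rw [Finset.mem_filter] at hz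
        by_cases hzC : z ∈ C
        · exact Finset.mem_union_right _ hzC
        · exact Finset.mem_union_left _ (Finset.mem_filter.mpr
            ⟨Finset.mem_sdiff.mpr ⟨hz.1, hzC⟩, hz.2⟩)
      have h3 : ((G.filter fun z => evz A z β = 0).card : ℝ) ≤
          ((G \ C).filter fun z => evz A z β = 0).card + C.card := by
        exact_mod_cast (Finset.card_le_card h2).trans (Finset.card_union_le _ _)
      have h4 : (ε - i / A.card) * q = ε * q - i / A.card * q := by ring
      rw [h4]
      linarith
    have hswap : ∑ β ∈ B, (((G \ C).filter fun z => evz A z β = 0).card : ℝ) =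
        ∑ z ∈ G \ C, ((B.filter fun β => evz A z β = 0).card : ℝ) := by
      simp only [Finset.card_filter, Nat.cast_sum]
      rw [Finset.sum_comm]
    have hone : ∀ z ∈ G \ C, ((B.filter fun β => evz A z β = 0).card : ℝ) *
        ∏ j ∈ range d, (ε - ((i + 1 + j : ℕ) : ℝ) / A.card) ≤
          (Fintype.card F : ℝ) ^ (A.card - c) := by
      intro z hz
      obtain ⟨hzG, hzC⟩ := Finset.mem_sdiff.mp hz
      have h1 : ∃ β₀ ∈ vanish A Z, evz A z β₀ ≠ 0 := by
        by_contra h
        push Not at h
        exact hzC (Finset.mem_filter.mpr ⟨hzG, h⟩)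
      obtain ⟨β₀, hβ₀, hz₀⟩ := h1
      have h2 := finrank_insert A Z z β₀ hβ₀ hz₀
      have h3 := ih (i + 1) (insert z Z) (by omega) (by omega)
      have h4 : (B.filter fun β => evz A z β = 0).card = bad A G (ε * q) (insert z Z) := by
        rw [bad]
        congr 1
        ext β
        simp only [B, Finset.mem_filter, Finset.mem_univ, true_and, mem_vanish,
          Set.mem_insert_iff, forall_eq_or_imp]
        tauto
      rw [h4]
      exact h3
    have hP : 0 ≤ ∏ j ∈ range d, (ε - ((i + 1 + j : ℕ) : ℝ) / A.card) :=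
      Finset.prod_nonneg fun j hj => hc _ (by have := Finset.mem_range.mp hj; omega)
    have hsum : (∑ z ∈ G \ C, ((B.filter fun β => evz A z β = 0).card : ℝ)) *
        ∏ j ∈ range d, (ε - ((i + 1 + j : ℕ) : ℝ) / A.card) ≤
          q * (Fintype.card F : ℝ) ^ (A.card - c) := by
      rw [Finset.sum_mul]
      refine (Finset.sum_le_sum hone).trans ?_
      rw [Finset.sum_const, nsmul_eq_mul]
      refine mul_le_mul_of_nonneg_right ?_ (by positivity)
      exact_mod_cast (Finset.card_le_card Finset.sdiff_subset).trans hGq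
    have hfin : ((B.card : ℝ) * ((ε - i / A.card) * q)) *
        ∏ j ∈ range d, (ε - ((i + 1 + j : ℕ) : ℝ) / A.card) ≤
          q * (Fintype.card F : ℝ) ^ (A.card - c) :=
      (mul_le_mul_of_nonneg_right (hlow.trans hswap.le) hP).trans hsum
    rw [Finset.prod_range_succ', hB]
    have h5 : ∏ j ∈ range d, (ε - ((i + (j + 1) : ℕ) : ℝ) / A.card) =
        ∏ j ∈ range d, (ε - ((i + 1 + j : ℕ) : ℝ) / A.card) := by
      refine Finset.prod_congr rfl fun j _ => ?_
      rw [show i + (j + 1) = i + 1 + j by omega]
    rw [h5, add_zero]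
    refine le_of_mul_le_mul_left ?_ hq'
    calc (q : ℝ) * ((B.card : ℝ) * ((∏ j ∈ range d, (ε - ((i + 1 + j : ℕ) : ℝ) / A.card)) *
          (ε - (i : ℝ) / A.card)))
        = ((B.card : ℝ) * ((ε - i / A.card) * q)) *
          ∏ j ∈ range d, (ε - ((i + 1 + j : ℕ) : ℝ) / A.card) := by ring
      _ ≤ q * (Fintype.card F : ℝ) ^ (A.card - c) := hfin

end fin

end Pool.Agent.Helper24_Sparse
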