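import Pool.Agent.Helper24_Sparse.Almost2

/-!
# Almost all coefficient vectors: the asymptotic form
-/

set_option autoImplicit false

namespace Pool.Agent.Helper24_Sparse

open Finset Module

theorem badset_eq {p q : ℕ} [Fact p.Prime] (A : Finset ℕ) (r : ℝ) :
    ({β : A → ZMod p | r ≤ ({z : ZMod p | z ^ q = 1 ∧
        ∑ i : A, β i * z ^ (i : ℕ) = 0}.ncard : ℝ)}.ncard : ℝ) =
      bad A ((univ : Finset (ZMod p)).filter fun z => z ^ q = 1) r (∅ : Set (ZMod p)) := by
  classical
  have h1 : ∀ β : A → ZMod p, {z : ZMod p | z ^ q = 1 ∧ ∑ i : A, β i * z ^ (i : ℕ) = 0}.ncard =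
      (((univ : Finset (ZMod p)).filter fun z => z ^ q = 1).filter
        fun z => evz A z β = 0).card := by
    intro β
    rw [← Set.ncard_coe_finset]
    congr 1
    ext z
    rw [Finset.mem_coe, Finset.mem_filter, Finset.mem_filter]
    simp only [Set.mem_ofPred_eq, Finset.mem_univ, true_and, evz, LinearMap.coe_mk, AddHom.coe_mk]
  rw [bad, ← Set.ncard_coe_finset]
  congr 2
  ext β
  simp only [Set.mem_ofPred_eq, Finset.coe_filter, Finset.mem_univ, true_and, mem_vanish,
    Set.mem_empty_iff_false, IsEmpty.forall_iff, implies_true, h1]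

theorem card_roots_le {p q : ℕ} [Fact p.Prime] (hq : 0 < q) :
    ((univ : Finset (ZMod p)).filter fun z => z ^ q = 1).card ≤ q := by
  classical
  have h : ((univ : Finset (ZMod p)).filter fun z => z ^ q = 1) ⊆
      (Polynomial.nthRoots q (1 : ZMod p)).toFinset := by
    intro z hz
    rw [Multiset.mem_toFinset, Polynomial.mem_nthRoots hq]
    exact (Finset.mem_filter.mp hz).2
  exact (Finset.card_le_card h).trans ((Multiset.toFinset_card_le _).trans
    (Polynomial.card_nthRoots q 1))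

theorem almost (ε γ : ℝ) (h : γ < ε) :
    ∃ N : ℕ, ∀ p q : ℕ, p.Prime → q.Prime → N ≤ p → q ∣ p - 1 →
      ∀ A : Finset ℕ, A ⊆ range q → A.Nonempty →
        ({β : A → ZMod p | ε * q ≤ ({z : ZMod p | z ^ q = 1 ∧
            ∑ i : A, β i * z ^ (i : ℕ) = 0}.ncard : ℝ)}.ncard : ℝ) ≤
          (p : ℝ) ^ ((1 - γ) * A.card) := by
  classical
  rcases lt_or_ge γ 0 with hγ | hγ
  · -- trivial bound
    refine ⟨0, fun p q hp hq _ _ A hA hA0 => ?_⟩
    have := Fact.mk hp
    rw [badset_eq]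
    have h1 := bad_le A ((univ : Finset (ZMod p)).filter fun z => z ^ q = 1) (ε * q)
      (∅ : Set (ZMod p))
    have h2 : finrank (ZMod p) (vanish A (∅ : Set (ZMod p))) ≤ A.card := by
      have := Submodule.finrank_le (vanish A (∅ : Set (ZMod p)))
      rwa [finrank_pi] at this
    have hp1 : (1 : ℝ) ≤ p := by exact_mod_cast hp.one_le
    rw [ZMod.card] at h1
    have h3 : (bad A ((univ : Finset (ZMod p)).filter fun z => z ^ q = 1) (ε * q)
        (∅ : Set (ZMod p)) : ℝ) ≤ (p : ℝ) ^ A.card := by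
      calc (bad A ((univ : Finset (ZMod p)).filter fun z => z ^ q = 1) (ε * q)
            (∅ : Set (ZMod p)) : ℝ) ≤ (p : ℝ) ^ finrank (ZMod p) (vanish A (∅ : Set (ZMod p))) := by
              exact_mod_cast h1
        _ ≤ (p : ℝ) ^ A.card := pow_le_pow_right₀ hp1 h2
    refine h3.trans ?_
    rw [← Real.rpow_natCast]
    refine Real.rpow_le_rpow_of_exponent_le hp1 ?_
    have : (0 : ℝ) ≤ A.card := by positivity
    nlinarith
  rcases lt_or_ge 1 ε with hε | hε
  · -- no bad polynomials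
    refine ⟨0, fun p q hp hq _ _ A hA hA0 => ?_⟩
    have := Fact.mk hp
    have h1 : {β : A → ZMod p | ε * q ≤ ({z : ZMod p | z ^ q = 1 ∧
            ∑ i : A, β i * z ^ (i : ℕ) = 0}.ncard : ℝ)} = ∅ := by
      ext β
      simp only [Set.mem_ofPred_eq, Set.mem_empty_iff_false, iff_false, not_le]
      have h2 : {z : ZMod p | z ^ q = 1 ∧ ∑ i : A, β i * z ^ (i : ℕ) = 0}.ncard ≤ q := by
        refine le_trans ?_ (card_roots_le (p := p) hq.pos)
        rw [← Set.ncard_coe_finset]
        refine Set.ncard_le_ncard ?_ (Finset.finite_toSet _)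
        intro z hz
        simp only [Finset.coe_filter, Finset.mem_univ, true_and, Set.mem_ofPred_eq]
        exact hz.1
      have h3 : (0 : ℝ) < q := by exact_mod_cast hq.pos
      have h4 : ({z : ZMod p | z ^ q = 1 ∧ ∑ i : A, β i * z ^ (i : ℕ) = 0}.ncard : ℝ) ≤ q := by
        exact_mod_cast h2
      nlinarith
    rw [h1, Set.ncard_empty]
    simp only [Nat.cast_zero]
    positivity
  -- the main case
  set θ : ℝ := (ε + γ) / 2 with hθ
  set η : ℝ := (ε - γ) / 2 with hη
  have hη0 : 0 < η := by rw [hη]; linarith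
  have hθ0 : 0 < θ := by rw [hθ]; linarith
  have hθ1 : θ ≤ 1 := by rw [hθ]; linarith
  have hγθ : γ < θ := by rw [hθ]; linarith
  have hεθ : ε - θ = η := by rw [hθ, hη]; ring
  set κ : ℝ := 1 - γ / θ with hκ
  have hκ0 : 0 < κ := by
    rw [hκ, sub_pos, div_lt_one hθ0]
    exact hγθ
  obtain ⟨N, hN⟩ := exists_nat_ge ((1 / η) ^ (1 / κ))
  refine ⟨N, fun p q hp hq hNp _ A hA hA0 => ?_⟩
  have := Fact.mk hp
  rw [badset_eq]
  have hp1 : (1 : ℝ) ≤ p := by exact_mod_cast hp.one_le
  have hp0 : (0 : ℝ) < p := by linarith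
  have hk : 0 < A.card := hA0.card_pos
  have hk' : (0 : ℝ) < A.card := by exact_mod_cast hk
  set c : ℕ := ⌈θ * A.card⌉₊ with hc
  have hck : c ≤ A.card := by
    rw [hc, Nat.ceil_le]
    nlinarith
  have hcθ : θ * A.card ≤ c := Nat.le_ceil _
  have hfac : ∀ j : ℕ, j < c → η ≤ ε - j / A.card := by
    intro j hj
    have h1 : (j : ℝ) < θ * A.card := Nat.lt_ceil.mp hj
    have h2 : (j : ℝ) / A.card < θ := by rwa [div_lt_iff₀ hk']
    linarith
  have hG : ∀ z ∈ (univ : Finset (ZMod p)).filter fun z => z ^ q = 1, z ^ q = 1 := fun z hz =>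
    (Finset.mem_filter.mp hz).2
  have htop : finrank (ZMod p) (vanish A (∅ : Set (ZMod p))) = A.card := by
    have h1 : vanish A (∅ : Set (ZMod p)) = ⊤ := by
      rw [eq_top_iff]
      intro β _ z hz
      exact absurd hz (Set.notMem_empty z)
    rw [h1, finrank_top, finrank_pi]
  have h1 := count hq.pos A hA hA0 ((univ : Finset (ZMod p)).filter fun z => z ^ q = 1) hG
    (card_roots_le hq.pos) ε c (fun j hj => hη0.le.trans (hfac j hj)) c 0 ∅ (zero_add c)
    (by rw [add_zero]; exact htop)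
  rw [ZMod.card] at h1
  set b : ℝ := (bad A ((univ : Finset (ZMod p)).filter fun z => z ^ q = 1) (ε * q)
        (∅ : Set (ZMod p)) : ℝ) with hb
  have hb0 : 0 ≤ b := by rw [hb]; positivity
  have h2 : η ^ c ≤ ∏ j ∈ range c, (ε - ((0 + j : ℕ) : ℝ) / A.card) := by
    calc η ^ c = ∏ _j ∈ range c, η := by rw [Finset.prod_const, Finset.card_range]
      _ ≤ _ := by
        refine Finset.prod_le_prod (fun _ _ => hη0.le) fun j hj => ?_
        rw [zero_add]
        exact hfac j (Finset.mem_range.mp hj)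
  have h3 : b * η ^ c ≤ (p : ℝ) ^ (A.card - c) :=
    (mul_le_mul_of_nonneg_left h2 hb0).trans h1
  -- `1 / η ≤ p ^ κ`
  have h4 : 1 / η ≤ (p : ℝ) ^ κ := by
    have h5 : (1 / η) ^ (1 / κ) ≤ (p : ℝ) := hN.trans (by exact_mod_cast hNp)
    have h6 : 0 ≤ 1 / η := by positivity
    calc 1 / η = ((1 / η) ^ (1 / κ)) ^ κ := by
          rw [← Real.rpow_mul h6, one_div_mul_cancel hκ0.ne', Real.rpow_one]
      _ ≤ (p : ℝ) ^ κ := Real.rpow_le_rpow (Real.rpow_nonneg h6 _) h5 hκ0.le
  have h7 : b ≤ (p : ℝ) ^ (A.card - c) * (1 / η) ^ c := by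
    rw [one_div, inv_pow, ← div_eq_mul_inv, le_div_iff₀ (by positivity)]
    exact h3
  calc b ≤ (p : ℝ) ^ (A.card - c) * (1 / η) ^ c := h7
    _ ≤ (p : ℝ) ^ (A.card - c) * ((p : ℝ) ^ κ) ^ c := by
        refine mul_le_mul_of_nonneg_left ?_ (by positivity)
        exact pow_le_pow_left₀ (by positivity) h4 c
    _ = (p : ℝ) ^ ((A.card : ℝ) - c + κ * c) := by
        rw [← Real.rpow_natCast (p : ℝ) (A.card - c), ← Real.rpow_natCast ((p : ℝ) ^ κ) c,
          ← Real.rpow_mul hp0.le, ← Real.rpow_add hp0, Nat.cast_sub hck]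
    _ ≤ (p : ℝ) ^ ((1 - γ) * A.card) := by
        refine Real.rpow_le_rpow_of_exponent_le hp1 ?_
        have h8 : γ / θ * (θ * A.card) ≤ γ / θ * c :=
          mul_le_mul_of_nonneg_left hcθ (by positivity)
        have h9 : γ / θ * (θ * A.card) = γ * A.card := by
          field_simp
        rw [hκ]
        linarith

end Pool.Agent.Helper24_Sparse
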