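import Pool.Agent.Helper24_Sparse.Small

/-!
# The asymptotic form
-/

namespace Pool.Agent.Helper24_Sparse

open Finset

/-- polynomials whose coefficients are short integer combinations of `t` residues -/
theorem final (t : ℕ) (ht : 0 < t) (η δ ε : ℝ) (hη : 0 ≤ η) (hδ : 0 ≤ δ)
    (h : 1 - 1 / (t : ℝ) + η + δ / 2 < ε) :
    ∃ N : ℕ, ∀ p q : ℕ, p.Prime → q.Prime → N ≤ p → N ≤ q → q ∣ p - 1 →
      ∀ A : Finset ℕ, A ⊂ range q → (A.card : ℝ) ≤ (q : ℝ) ^ δ →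
      ∀ (β : ℕ → ZMod p) (γ : Fin t → ZMod p) (n : ℕ → Fin t → ℤ),
        (∀ i ∈ A, β i ≠ 0) → (∀ i ∈ A, ∀ j, |(n i j : ℝ)| ≤ (p : ℝ) ^ η) →
        (∀ i ∈ A, β i = ∑ j, (n i j : ZMod p) * γ j) → A.Nonempty →
        ({z : ZMod p | z ^ q = 1 ∧ ∑ i ∈ A, β i * z ^ i = 0}.ncard : ℝ) ≤ ε * q := by
  set θ : ℝ := 1 - 1 / (t : ℝ) + η with hθ
  set κ : ℝ := ε - θ - δ / 2 with hκ
  have hκ0 : 0 < κ := by simp only [hκ, hθ]; linarith
  have htR : (0 : ℝ) < t := by exact_mod_cast ht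
  -- the thresholds
  obtain ⟨N1, hN1⟩ : ∃ N1 : ℕ, ∀ p : ℕ, N1 ≤ p → 8 * (t : ℝ) ^ 2 ≤ (p : ℝ) ^ κ := by
    have h1 : Filter.Tendsto (fun p : ℕ => (p : ℝ) ^ κ) Filter.atTop Filter.atTop :=
      (tendsto_rpow_atTop hκ0).comp tendsto_natCast_atTop_atTop
    exact Filter.eventually_atTop.mp (h1.eventually_ge_atTop _)
  obtain ⟨N2, hN2⟩ := exists_nat_ge (4 / κ)
  refine ⟨max (max N1 N2) (2 ^ t), fun p q hp hq hNp hNq hqp A hA hk β γ n hβ hn hβn hne => ?_⟩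
  have := Fact.mk hp
  have hN1p : N1 ≤ p := le_trans (le_trans (le_max_left _ _) (le_max_left _ _)) hNp
  have hN2q : N2 ≤ q := le_trans (le_trans (le_max_right _ _) (le_max_left _ _)) hNq
  have h2tp : 2 ^ t ≤ p := le_trans (le_max_right _ _) hNp
  have hp1 : (1 : ℝ) < p := by exact_mod_cast hp.one_lt
  have hp0 : (0 : ℝ) < p := by linarith
  have hqlep : q ≤ p := le_trans (Nat.le_of_dvd (by have := hp.one_lt; omega) hqp) (Nat.sub_le _ _)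
  have hq0 : (0 : ℝ) < q := by exact_mod_cast hq.pos
  -- the multiplier
  set m : ℕ := ⌈(p : ℝ) ^ (1 / (t : ℝ))⌉₊ - 1 with hm
  have hroot2 : (2 : ℝ) ≤ (p : ℝ) ^ (1 / (t : ℝ)) := by
    have h1 : ((2 : ℝ) ^ t) ^ (1 / (t : ℝ)) ≤ (p : ℝ) ^ (1 / (t : ℝ)) := by
      refine Real.rpow_le_rpow (by positivity) ?_ (by positivity)
      exact_mod_cast h2tp
    rwa [← Real.rpow_natCast, ← Real.rpow_mul (by norm_num), mul_one_div_cancel htR.ne',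
      Real.rpow_one] at h1
  have hceil : 2 ≤ ⌈(p : ℝ) ^ (1 / (t : ℝ))⌉₊ := by
    have := Nat.ceil_mono hroot2
    simpa using this
  have hmR : (m : ℝ) = (⌈(p : ℝ) ^ (1 / (t : ℝ))⌉₊ : ℝ) - 1 := by
    rw [hm, Nat.cast_sub (by omega)]; simp
  have hmlt : (m : ℝ) < (p : ℝ) ^ (1 / (t : ℝ)) := by
    rw [hmR]
    have := Nat.ceil_lt_add_one (le_trans (by norm_num) hroot2)
    linarith
  have hmge : (p : ℝ) ^ (1 / (t : ℝ)) / 2 ≤ m := by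
    rw [hmR]
    have := Nat.le_ceil ((p : ℝ) ^ (1 / (t : ℝ)))
    linarith
  have hm0 : 0 < m := by omega
  have hmt : m ^ t < p := by
    have h1 : (m : ℝ) ^ t < ((p : ℝ) ^ (1 / (t : ℝ))) ^ t :=
      pow_lt_pow_left₀ hmlt (by positivity) ht.ne'
    rw [← Real.rpow_natCast ((p : ℝ) ^ (1 / (t : ℝ))), ← Real.rpow_mul hp0.le,
      one_div_mul_cancel htR.ne', Real.rpow_one] at h1
    exact_mod_cast h1
  obtain ⟨l, hl, c, hc, hcγ⟩ := dirichlet t m hm0 hmt γ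
  have hcb : ∀ j, |(c j : ℝ)| ≤ 2 * (p : ℝ) ^ (1 - 1 / (t : ℝ)) := by
    intro j
    have h1 := hc j
    have hm0' : (0 : ℝ) < m := by exact_mod_cast hm0
    have h2 : (p : ℝ) ≤ 2 * (p : ℝ) ^ (1 - 1 / (t : ℝ)) * m := by
      calc (p : ℝ) = 2 * (p : ℝ) ^ (1 - 1 / (t : ℝ)) * ((p : ℝ) ^ (1 / (t : ℝ)) / 2) := by
            have : (p : ℝ) ^ (1 - 1 / (t : ℝ)) * (p : ℝ) ^ (1 / (t : ℝ)) = p := by
              rw [← Real.rpow_add hp0, sub_add_cancel, Real.rpow_one]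
            linarith
        _ ≤ _ := by gcongr
    exact le_of_mul_le_mul_right (le_trans h1 h2) hm0'
  -- the integer coefficients
  set b : ℕ → ℤ := fun i => ∑ j, n i j * c j with hb
  have hbβ : ∀ i ∈ A, (b i : ZMod p) = l * β i := by
    intro i hi
    rw [hβn i hi, mul_sum, hb]
    push_cast
    refine sum_congr rfl fun j _ => ?_
    rw [hcγ j]
    ring
  have hb0 : ∀ i ∈ A, b i ≠ 0 := by
    intro i hi h0
    have h1 := hbβ i hi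
    rw [h0, Int.cast_zero] at h1
    exact mul_ne_zero hl (hβ i hi) h1.symm
  have hbb : ∀ i ∈ A, (b i : ℝ) ^ 2 ≤ 4 * (t : ℝ) ^ 2 * (p : ℝ) ^ (2 * θ) := by
    intro i hi
    have h1 : |(b i : ℝ)| ≤ 2 * t * (p : ℝ) ^ θ := by
      calc |(b i : ℝ)| = |∑ j, (n i j : ℝ) * (c j : ℝ)| := by rw [hb]; push_cast; rfl
        _ ≤ ∑ j : Fin t, |(n i j : ℝ) * (c j : ℝ)| := abs_sum_le_sum_abs _ _
        _ ≤ ∑ _j : Fin t, (p : ℝ) ^ η * (2 * (p : ℝ) ^ (1 - 1 / (t : ℝ))) := by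
            refine sum_le_sum fun j _ => ?_
            rw [abs_mul]
            exact mul_le_mul (hn i hi j) (hcb j) (abs_nonneg _) (by positivity)
        _ = 2 * t * ((p : ℝ) ^ (1 - 1 / (t : ℝ)) * (p : ℝ) ^ η) := by
            rw [sum_const, card_univ, Fintype.card_fin, nsmul_eq_mul]
            ring
        _ = 2 * t * (p : ℝ) ^ θ := by rw [← Real.rpow_add hp0, hθ]
    calc (b i : ℝ) ^ 2 = |(b i : ℝ)| ^ 2 := (sq_abs _).symm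
      _ ≤ (2 * t * (p : ℝ) ^ θ) ^ 2 := pow_le_pow_left₀ (abs_nonneg _) h1 2
      _ = 4 * (t : ℝ) ^ 2 * (p : ℝ) ^ (2 * θ) := by
          rw [mul_comm 2 θ, Real.rpow_mul hp0.le, Real.rpow_two]
          ring
  have key := roots_bound hq hqp A hA hne b hb0
  have hset : {z : ZMod p | z ^ q = 1 ∧ ∑ i ∈ A, (b i : ZMod p) * z ^ i = 0} =
      {z : ZMod p | z ^ q = 1 ∧ ∑ i ∈ A, β i * z ^ i = 0} := by
    ext z
    simp only [Set.mem_setOf_eq]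
    have h1 : ∑ i ∈ A, (b i : ZMod p) * z ^ i = l * ∑ i ∈ A, β i * z ^ i := by
      rw [mul_sum]
      refine sum_congr rfl fun i hi => ?_
      rw [hbβ i hi]
      ring
    rw [h1, mul_eq_zero, or_iff_right hl]
  rw [hset] at key
  set R : ℕ := {z : ZMod p | z ^ q = 1 ∧ ∑ i ∈ A, β i * z ^ i = 0}.ncard with hR
  have hS : 2 * ∑ i ∈ A, (b i : ℝ) ^ 2 ≤ (p : ℝ) ^ (κ + δ + 2 * θ) := by
    have h1 : ∑ i ∈ A, (b i : ℝ) ^ 2 ≤ A.card * (4 * (t : ℝ) ^ 2 * (p : ℝ) ^ (2 * θ)) := by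
      rw [← nsmul_eq_mul]
      exact sum_le_card_nsmul _ _ _ hbb
    have h2 : (A.card : ℝ) ≤ (p : ℝ) ^ δ :=
      le_trans hk (Real.rpow_le_rpow hq0.le (by exact_mod_cast hqlep) hδ)
    calc 2 * ∑ i ∈ A, (b i : ℝ) ^ 2 ≤ 2 * (A.card * (4 * (t : ℝ) ^ 2 * (p : ℝ) ^ (2 * θ))) := by
          gcongr
      _ = (8 * (t : ℝ) ^ 2) * (A.card * (p : ℝ) ^ (2 * θ)) := by ring
      _ ≤ (p : ℝ) ^ κ * ((p : ℝ) ^ δ * (p : ℝ) ^ (2 * θ)) := by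
          gcongr
          exact hN1 p hN1p
      _ = (p : ℝ) ^ (κ + δ + 2 * θ) := by rw [← Real.rpow_add hp0, ← Real.rpow_add hp0]; ring_nf
  have hS0 : 0 ≤ 2 * ∑ i ∈ A, (b i : ℝ) ^ 2 := by positivity
  have hθ0 : 0 ≤ θ := by
    have : 1 / (t : ℝ) ≤ 1 := by
      rw [div_le_one htR]
      exact_mod_cast ht
    linarith
  have h3 : (p : ℝ) ^ ((2 * (R - 1) : ℕ) : ℝ) ≤ (p : ℝ) ^ (2 + (κ + δ + 2 * θ) * q) := by
    rw [Real.rpow_natCast]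
    refine le_trans key ?_
    have h4 : (2 * ∑ i ∈ A, (b i : ℝ) ^ 2) ^ (q - 1) ≤ (p : ℝ) ^ ((κ + δ + 2 * θ) * q) := by
      calc (2 * ∑ i ∈ A, (b i : ℝ) ^ 2) ^ (q - 1) ≤ ((p : ℝ) ^ (κ + δ + 2 * θ)) ^ (q - 1) :=
            pow_le_pow_left₀ hS0 hS _
        _ ≤ ((p : ℝ) ^ (κ + δ + 2 * θ)) ^ q := by
            refine pow_le_pow_right₀ ?_ (Nat.sub_le _ _)
            exact Real.one_le_rpow hp1.le (by positivity)
        _ = (p : ℝ) ^ ((κ + δ + 2 * θ) * q) := by rw [Real.rpow_mul hp0.le, Real.rpow_natCast]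
    calc (q : ℝ) ^ 2 * (2 * ∑ i ∈ A, (b i : ℝ) ^ 2) ^ (q - 1)
        ≤ (p : ℝ) ^ 2 * (p : ℝ) ^ ((κ + δ + 2 * θ) * q) := by gcongr
      _ = (p : ℝ) ^ (2 + (κ + δ + 2 * θ) * q) := by
          rw [Real.rpow_add hp0, Real.rpow_two]
  rw [Real.rpow_le_rpow_left_iff hp1] at h3
  have h5 : (2 : ℝ) * R ≤ ((2 * (R - 1) : ℕ) : ℝ) + 2 := by
    have : 2 * R ≤ 2 * (R - 1) + 2 := by omega
    exact_mod_cast this
  have h6 : 4 ≤ κ * q := by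
    have h7 : 4 / κ ≤ q := le_trans hN2 (by exact_mod_cast hN2q)
    rwa [div_le_iff₀ hκ0, mul_comm] at h7
  have h8 : κ * q + (κ + δ + 2 * θ) * q = 2 * (ε * q) := by
    simp only [hκ]
    ring
  linarith

end Pool.Agent.Helper24_Sparse
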