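import Mathlib

/-!
# Circulant matrices and roots modulo a prime
-/

namespace Pool.Agent.Helper24_Sparse

open Finset Matrix

/-- the value of the polynomial with the coefficients `b` at `z` -/
def ev {K : Type*} [CommRing K] {q : ℕ} (b : Fin q → ℤ) (z : K) : K :=
  ∑ t : Fin q, (b t : K) * z ^ (t : ℕ)

/-- the circulant matrix -/
def circ {q : ℕ} [NeZero q] (b : Fin q → ℤ) : Matrix (Fin q) (Fin q) ℤ := fun i j => b (j - i)

theorem pow_val_add {K : Type*} [CommRing K] {q : ℕ} [NeZero q] (z : K) (hz : z ^ q = 1)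
    (s t : Fin q) : z ^ ((s + t : Fin q) : ℕ) = z ^ (s : ℕ) * z ^ (t : ℕ) := by
  rw [Fin.val_add, ← pow_add, ← pow_eq_pow_mod _ hz]

theorem circ_mul {K : Type*} [CommRing K] {q : ℕ} [NeZero q] (b : Fin q → ℤ) (z : Fin q → K)
    (hz : ∀ s, z s ^ q = 1) :
    (circ b).map (Int.cast : ℤ → K) * (vandermonde z)ᵀ =
      (vandermonde z)ᵀ * diagonal (fun s => ev b (z s)) := by
  ext i s
  rw [mul_diagonal, mul_apply]
  simp only [map_apply, circ, transpose_apply, vandermonde_apply, ev, mul_sum]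
  refine Fintype.sum_equiv (Equiv.subRight i) _ _ fun j => ?_
  have h : j = (j - i) + i := by abel
  simp only [Equiv.subRight_apply]
  conv_lhs => rw [show z s ^ (j : ℕ) = z s ^ (((j - i) + i : Fin q) : ℕ) by rw [← h]]
  rw [pow_val_add _ (hz s)]
  ring

theorem det_circ {K : Type*} [Field K] {q : ℕ} [NeZero q] (b : Fin q → ℤ) (z : Fin q → K)
    (hz : ∀ s, z s ^ q = 1) (hi : Function.Injective z) :
    ((circ b).det : K) = ∏ s, ev b (z s) := by
  have h := congrArg det (circ_mul b z hz)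
  rw [det_mul, det_mul, det_diagonal, mul_comm] at h
  have h0 : (vandermonde z)ᵀ.det ≠ 0 := by
    rw [det_transpose]
    exact det_vandermonde_ne_zero_iff.mpr hi
  have h1 := mul_left_cancel₀ h0 h
  rw [← h1]
  have := (Int.castRingHom K).map_det (circ b)
  simpa using this

/-- columns divisible by `p` -/
theorem pow_dvd_det {q : ℕ} (p : ℤ) (B : Matrix (Fin q) (Fin q) ℤ) (T : Finset (Fin q))
    (h : ∀ s ∈ T, ∀ i, p ∣ B i s) : p ^ T.card ∣ B.det := by
  choose! c hc using h
  have h1 : B = (Matrix.of fun i s => if s ∈ T then c s i else B i s) *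
      diagonal (fun s => if s ∈ T then p else 1) := by
    ext i s
    rw [mul_diagonal]
    simp only [of_apply]
    split_ifs with hs
    · rw [hc s hs i]; ring
    · ring
  rw [h1, det_mul, det_diagonal]
  refine Dvd.dvd.mul_left ?_ _
  rw [prod_ite_mem, univ_inter, prod_const]

/-- if the polynomial vanishes at `T` of the roots of unity modulo `p` then `p ^ |T|` divides the
determinant -/
theorem pow_dvd_circ {q : ℕ} [NeZero q] (p : ℕ) [Fact p.Prime] (b : Fin q → ℤ)
    (z : Fin q → ZMod p) (hz : ∀ s, z s ^ q = 1) (hi : Function.Injective z)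
    (T : Finset (Fin q)) (hT : ∀ s ∈ T, ev b (z s) = 0) :
    (p : ℤ) ^ T.card ∣ (circ b).det := by
  set W : Matrix (Fin q) (Fin q) ℤ := (vandermonde z)ᵀ.map (fun x => ((x.val : ℕ) : ℤ)) with hW
  have hWc : W.map (Int.cast : ℤ → ZMod p) = (vandermonde z)ᵀ := by
    ext i j
    simp [hW]
  have h1 : (p : ℤ) ^ T.card ∣ (circ b * W).det := by
    refine pow_dvd_det _ _ T fun s hs i => ?_
    rw [← ZMod.intCast_zmod_eq_zero_iff_dvd]
    have e : (circ b * W).map (Int.cast : ℤ → ZMod p) =
        (vandermonde z)ᵀ * diagonal (fun s => ev b (z s)) := by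
      rw [← circ_mul b z hz, ← hWc]
      exact Matrix.map_mul (f := Int.castRingHom (ZMod p))
    have e1 := congrFun (congrFun e i) s
    rw [mul_diagonal, hT s hs, mul_zero] at e1
    exact e1
  rw [det_mul] at h1
  have h2 : ¬ (p : ℤ) ∣ W.det := by
    rw [← ZMod.intCast_zmod_eq_zero_iff_dvd]
    have e : ((W.det : ℤ) : ZMod p) = (W.map (Int.cast : ℤ → ZMod p)).det :=
      (Int.castRingHom (ZMod p)).map_det W
    rw [e, hWc, det_transpose]
    exact det_vandermonde_ne_zero_iff.mpr hi
  exact Prime.pow_dvd_of_dvd_mul_right (Nat.prime_iff_prime_int.mp Fact.out) _ h2 h1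

end Pool.Agent.Helper24_Sparse
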